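import Mathlib

set_option autoImplicit false

namespace Pool.Agent.Results.MP_06111c_an.JumpSet

open MeasureTheory Set Filter Topology Metric
open scoped ENNReal

/-- The Euclidean space. -/
abbrev Eu (n : ℕ) : Type := EuclideanSpace ℝ (Fin n)

section Density

variable {n : ℕ}

/-- Iteration of the estimate `g (r / 2) ≤ C r ^ m + ε g r`. -/
theorem iterate {g : ℝ → ℝ} (hg : Monotone g) {C ε r₀ : ℝ} {m : ℕ} (hC : 0 ≤ C) (hr₀ : 0 < r₀)
    (hε : 0 ≤ ε) (hε2 : ε * 2 ^ m ≤ 1 / 2)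
    (h : ∀ r, 0 < r → r ≤ r₀ → g (r / 2) ≤ C * r ^ m + ε * g r) :
    ∃ A : ℝ, 0 ≤ A ∧ ∀ r, 0 < r → r ≤ r₀ → g r ≤ A * r ^ m := by
  set A₀ : ℝ := max (g r₀ / r₀ ^ m) (C * 2 ^ m * 2) with hA₀
  have hA₀0 : 0 ≤ A₀ := le_max_of_le_right (by positivity)
  have key : ∀ k : ℕ, g (r₀ / 2 ^ k) ≤ A₀ * (r₀ / 2 ^ k) ^ m := by
    intro k
    induction k with
    | zero =>
      rw [pow_zero, div_one]
      have h1 : g r₀ / r₀ ^ m ≤ A₀ := le_max_left _ _
      rwa [div_le_iff₀ (by positivity)] at h1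
    | succ k ih =>
      have h1 : r₀ / 2 ^ (k + 1) = (r₀ / 2 ^ k) / 2 := by rw [pow_succ]; field_simp
      have h2 : 0 < r₀ / 2 ^ k := by positivity
      have h3 : r₀ / 2 ^ k ≤ r₀ := by
        apply div_le_self hr₀.le
        exact one_le_pow₀ (by norm_num)
      set s := r₀ / 2 ^ k with hs
      have h4 := h s h2 h3
      rw [h1]
      have h5 : ε * g s ≤ ε * (A₀ * s ^ m) := by gcongr
      have h6 : C * 2 ^ m * 2 ≤ A₀ := le_max_right _ _
      have h7 : (s / 2) ^ m = s ^ m / 2 ^ m := div_pow _ _ _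
      have h8 : A₀ * (s / 2) ^ m * 2 ^ m = A₀ * s ^ m := by rw [h7]; field_simp
      have h9 : 0 < s ^ m := by positivity
      have h10 : (0 : ℝ) < 2 ^ m := by positivity
      have h11 : C * s ^ m * 2 ^ m ≤ A₀ / 2 * s ^ m := by nlinarith
      have h12 : ε * (A₀ * s ^ m) * 2 ^ m ≤ A₀ / 2 * s ^ m := by
        have : ε * (A₀ * s ^ m) * 2 ^ m = (ε * 2 ^ m) * (A₀ * s ^ m) := by ring
        rw [this]
        have : 0 ≤ A₀ * s ^ m := by positivity
        nlinarith
      have h13 : (g (s / 2)) * 2 ^ m ≤ (A₀ * (s / 2) ^ m) * 2 ^ m := by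
        rw [h8]
        nlinarith
      exact le_of_mul_le_mul_right h13 h10
  refine ⟨A₀ * 2 ^ m, by positivity, fun r hr hr' => ?_⟩
  -- choose `k` with `r₀ / 2 ^ (k + 1) < r ≤ r₀ / 2 ^ k`
  have hex : ∃ k : ℕ, r₀ / 2 ^ (k + 1) < r := by
    obtain ⟨k, hk⟩ := pow_unbounded_of_one_lt (r₀ / r) (by norm_num : (1 : ℝ) < 2)
    refine ⟨k, ?_⟩
    rw [div_lt_iff₀ hr] at hk
    rw [div_lt_iff₀ (by positivity), pow_succ]
    nlinarith [pow_pos (by norm_num : (0 : ℝ) < 2) k]
  classical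
  obtain ⟨k, hk1, hk2⟩ : ∃ k : ℕ, r₀ / 2 ^ (k + 1) < r ∧ r ≤ r₀ / 2 ^ k := by
    refine ⟨Nat.find hex, Nat.find_spec hex, ?_⟩
    rcases h0 : Nat.find hex with _ | j
    · simpa using hr'
    · have := Nat.find_min hex (m := j) (by omega)
      exact not_lt.1 this
  calc g r ≤ g (r₀ / 2 ^ k) := hg hk2
    _ ≤ A₀ * (r₀ / 2 ^ k) ^ m := key k
    _ ≤ A₀ * (2 * r) ^ m := by
        gcongr
        rw [pow_succ, ← div_div] at hk1
        linarith
    _ = A₀ * 2 ^ m * r ^ m := by rw [mul_pow]; ring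

/-- A measure with bounded upper density on a set does not charge it if its Hausdorff measure
vanishes. -/
theorem null_of_density {p : Measure (Eu n)} {m : ℕ}
    {S : Set (Eu n)} (hS : Measure.hausdorffMeasure (m : ℝ) S = 0) {k : ℝ} (hk : 0 < k)
    (h : ∀ x ∈ S, ∀ r, 0 < r → r < 1 / k → p (closedBall x r) ≤ ENNReal.ofReal (k * r ^ m)) :
    p S = 0 := by
  rw [Measure.hausdorffMeasure_apply] at hS
  have hr0 : (0 : ℝ≥0∞) < ENNReal.ofReal (1 / (2 * k)) := by
    rw [ENNReal.ofReal_pos]; positivity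
  have h1 := (ENNReal.iSup_eq_zero.1 ((ENNReal.iSup_eq_zero.1 hS) (ENNReal.ofReal (1 / (2 * k))))) hr0
  have key : ∀ η : ℝ≥0∞, 0 < η → p S ≤ ENNReal.ofReal k * η := by
    intro η hη
    rw [← h1] at hη
    obtain ⟨t, ht⟩ := iInf_lt_iff.1 hη
    obtain ⟨ht1, ht⟩ := iInf_lt_iff.1 ht
    obtain ⟨ht2, ht⟩ := iInf_lt_iff.1 ht
    have h2 : ∀ j, p (t j ∩ S) ≤
        ENNReal.ofReal k * ⨆ _ : (t j).Nonempty, ediam (t j) ^ (m : ℝ) := by
      intro j
      rcases (t j ∩ S).eq_empty_or_nonempty with he | ⟨x, hx1, hx2⟩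
      · rw [he, measure_empty]; exact zero_le
      · have hne : (t j).Nonempty := ⟨x, hx1⟩
        rw [iSup_pos hne]
        have hfin : ediam (t j) ≠ ⊤ := ne_top_of_le_ne_top ENNReal.ofReal_ne_top (ht2 j)
        set d := (ediam (t j)).toReal with hd
        have hd0 : 0 ≤ d := ENNReal.toReal_nonneg
        have hd1 : d < 1 / k := by
          have h3 : d ≤ 1 / (2 * k) := by
            have := ENNReal.toReal_mono ENNReal.ofReal_ne_top (ht2 j)
            rwa [ENNReal.toReal_ofReal (by positivity)] at this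
          refine h3.trans_lt ?_
          apply one_div_lt_one_div_of_lt hk; linarith
        have hsub : ∀ ρ, d < ρ → t j ∩ S ⊆ closedBall x ρ := by
          intro ρ hρ y hy
          rw [mem_closedBall]
          have h3 : edist y x ≤ ediam (t j) := edist_le_ediam_of_mem hy.1 hx1
          rw [edist_dist] at h3
          have h4 : dist y x ≤ d := by
            rw [hd, ← ENNReal.ofReal_le_iff_le_toReal hfin]
            exact h3
          linarith
        have h3 : ∀ᶠ ρ in 𝓝[>] d, p (t j ∩ S) ≤ ENNReal.ofReal (k * ρ ^ m) := by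
          filter_upwards [self_mem_nhdsWithin, mem_nhdsWithin_of_mem_nhds (gt_mem_nhds hd1)]
            with ρ hρ hρ2
          have hρ' : d < ρ := hρ
          exact (measure_mono (hsub ρ hρ')).trans (h x hx2 ρ (by linarith) hρ2)
        have h4 : Tendsto (fun ρ : ℝ => ENNReal.ofReal (k * ρ ^ m)) (𝓝[>] d)
            (𝓝 (ENNReal.ofReal (k * d ^ m))) := by
          refine (ENNReal.continuous_ofReal.comp (by fun_prop : Continuous fun ρ : ℝ => k * ρ ^ m)).continuousAt.tendsto.mono_left nhdsWithin_le_nhds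
        have h5 := ge_of_tendsto h4 h3
        refine h5.trans (le_of_eq ?_)
        rw [ENNReal.ofReal_mul hk.le, ENNReal.ofReal_pow hd0, hd, ENNReal.ofReal_toReal hfin,
          ENNReal.rpow_natCast]
    calc p S ≤ p (⋃ j, t j ∩ S) := by
          apply measure_mono
          intro x hx
          obtain ⟨j, hj⟩ := mem_iUnion.1 (ht1 hx)
          exact mem_iUnion.2 ⟨j, hj, hx⟩
      _ ≤ ∑' j, p (t j ∩ S) := measure_iUnion_le _
      _ ≤ ∑' j, ENNReal.ofReal k * ⨆ _ : (t j).Nonempty, ediam (t j) ^ (m : ℝ) :=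
          ENNReal.tsum_le_tsum h2
      _ = ENNReal.ofReal k * ∑' j, ⨆ _ : (t j).Nonempty, ediam (t j) ^ (m : ℝ) :=
          ENNReal.tsum_mul_left
      _ ≤ ENNReal.ofReal k * η := by gcongr
  have h3 : Tendsto (fun η : ℝ≥0∞ => ENNReal.ofReal k * η) (𝓝[>] 0) (𝓝 (ENNReal.ofReal k * 0)) :=
    ((ENNReal.continuous_const_mul ENNReal.ofReal_ne_top).tendsto 0).mono_left nhdsWithin_le_nhds
  rw [mul_zero] at h3
  have h4 : p S ≤ 0 := ge_of_tendsto h3 (by
    filter_upwards [self_mem_nhdsWithin] with η hη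
    exact key η hη)
  exact le_antisymm h4 zero_le

/-- The main measure theoretic statement. The function `ph` is a fixed bump, and `p`, `q` are the
positive and the negative part of a signed measure. -/
theorem null_pos {p q : Measure (Eu n)} [IsFiniteMeasure p] [IsFiniteMeasure q]
    (hpq : q ⟂ₘ p) {m : ℕ} {ph : Eu n → ℝ} (hph : Continuous ph) (h0 : ∀ y, 0 ≤ ph y)
    (h1 : ∀ y, ph y ≤ 1) (hin : ∀ y, ‖y‖ ≤ 1 / 2 → ph y = 1) (hout : ∀ y, 1 ≤ ‖y‖ → ph y = 0)
    {S : Set (Eu n)} (hS : Measure.hausdorffMeasure (m : ℝ) S = 0)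
    (h : ∀ x ∈ S, ∃ C r₀ : ℝ, 0 < r₀ ∧ ∀ r, 0 < r → r < r₀ →
      ∫ y, ph (r⁻¹ • (y - x)) ∂p - ∫ y, ph (r⁻¹ • (y - x)) ∂q ≤ C * r ^ m) :
    p S = 0 := by
  -- the set of good points
  have hgood : ∀ᵐ x ∂p, Tendsto (fun r => q (closedBall x r) / p (closedBall x r)) (𝓝[>] 0)
      (𝓝 0) := by
    filter_upwards [Besicovitch.ae_tendsto_rnDeriv q p, hpq.rnDeriv_ae_eq_zero] with x hx hx0
    rw [hx0] at hx
    exact hx
  have hbad : p {x | ¬ Tendsto (fun r => q (closedBall x r) / p (closedBall x r)) (𝓝[>] 0)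
      (𝓝 0)} = 0 := hgood
  -- the pieces
  set T : ℕ → Set (Eu n) := fun k => {x ∈ S | ∀ r, 0 < r → r < 1 / ((k : ℝ) + 1) →
    p (closedBall x r) ≤ ENNReal.ofReal (((k : ℝ) + 1) * r ^ m)} with hT
  have hTnull : ∀ k, p (T k) = 0 := by
    intro k
    have hk : (0 : ℝ) < (k : ℝ) + 1 := by positivity
    refine null_of_density (m := m) (k := (k : ℝ) + 1) (measure_mono_null ?_ hS) hk ?_
    · intro x hx; exact hx.1
    · intro x hx r hr hr'
      exact hx.2 r hr hr'
  have hcover : S ⊆ {x | ¬ Tendsto (fun r => q (closedBall x r) / p (closedBall x r)) (𝓝[>] 0)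
      (𝓝 0)} ∪ ⋃ k, T k := by
    intro x hx
    by_cases hxg : Tendsto (fun r => q (closedBall x r) / p (closedBall x r)) (𝓝[>] 0) (𝓝 0)
    swap
    · exact Or.inl hxg
    right
    obtain ⟨C, r₀, hr₀, hC⟩ := h x hx
    -- a small ratio
    set ε : ℝ := 1 / (2 * 2 ^ m) with hε
    have hε0 : 0 < ε := by positivity
    have hev : ∀ᶠ r in 𝓝[>] (0 : ℝ), q (closedBall x r) / p (closedBall x r) < ENNReal.ofReal ε :=
      hxg.eventually (gt_mem_nhds (by rw [ENNReal.ofReal_pos]; exact hε0))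
    obtain ⟨r₁, hr₁, H1⟩ : ∃ r₁ > 0, ∀ r, 0 < r → r < r₁ →
        q (closedBall x r) / p (closedBall x r) < ENNReal.ofReal ε := by
      rw [eventually_nhdsWithin_iff, Metric.eventually_nhds_iff] at hev
      obtain ⟨r₁, hr₁, H⟩ := hev
      refine ⟨r₁, hr₁, fun r hr hr' => H ?_ hr⟩
      rw [Real.dist_eq, sub_zero, abs_of_pos hr]
      exact hr'
    have H2 : ∀ r, 0 < r → r < r₁ → q.real (closedBall x r) ≤ ε * p.real (closedBall x r) := by
      intro r hr hr'
      have h2 := H1 r hr hr'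
      have hp0 : p (closedBall x r) ≠ 0 ∨ q (closedBall x r) = 0 := by
        by_contra hcon
        push Not at hcon
        rw [hcon.1, ENNReal.div_zero hcon.2] at h2
        exact absurd h2 (by simp)
      rcases hp0 with hp0 | hq0
      · rw [ENNReal.div_lt_iff (Or.inl hp0) (Or.inl (measure_ne_top _ _))] at h2
        have h3 := ENNReal.toReal_mono (by finiteness) h2.le
        rw [ENNReal.toReal_mul, ENNReal.toReal_ofReal hε0.le] at h3
        exact h3
      · rw [measureReal_def, hq0, ENNReal.toReal_zero]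
        positivity
    set ρ : ℝ := min r₀ r₁ / 2 with hρ
    have hρ0 : 0 < ρ := by
      have := lt_min hr₀ hr₁
      positivity
    have hρr₀ : ρ < r₀ := by
      have := min_le_left r₀ r₁
      have := lt_min hr₀ hr₁
      rw [hρ]; linarith
    have hρr₁ : ρ < r₁ := by
      have := min_le_right r₀ r₁
      have := lt_min hr₀ hr₁
      rw [hρ]; linarith
    have hmono : Monotone fun r => p.real (closedBall x r) := by
      intro r s hrs
      exact measureReal_mono (closedBall_subset_closedBall hrs)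
    have hint : ∀ (μ : Measure (Eu n)) [IsFiniteMeasure μ] (r : ℝ),
        Integrable (fun y => ph (r⁻¹ • (y - x))) μ := by
      intro μ _ r
      refine Integrable.of_bound (C := 1) ?_ ?_
      · exact (hph.comp (by fun_prop)).aestronglyMeasurable
      · filter_upwards with y
        rw [Real.norm_eq_abs, abs_of_nonneg (h0 _)]
        exact h1 _
    have hstep : ∀ r, 0 < r → r ≤ ρ → p.real (closedBall x (r / 2)) ≤
        max C 0 * r ^ m + ε * p.real (closedBall x r) := by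
      intro r hr hrρ
      have e1 : p.real (closedBall x (r / 2)) ≤ ∫ y, ph (r⁻¹ • (y - x)) ∂p := by
        rw [← integral_indicator_one (measurableSet_closedBall)]
        refine integral_mono ?_ (hint p r) fun y => ?_
        · exact (integrable_const (1 : ℝ)).indicator measurableSet_closedBall
        · by_cases hy : y ∈ closedBall x (r / 2)
          · rw [indicator_of_mem hy, hin]
            · rfl
            · rw [norm_smul, norm_inv, Real.norm_eq_abs, abs_of_pos hr, ← dist_eq_norm,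
                inv_mul_le_iff₀ hr]
              rw [mem_closedBall] at hy
              linarith
          · rw [indicator_of_notMem hy]
            exact h0 _
      have e2 : ∫ y, ph (r⁻¹ • (y - x)) ∂q ≤ q.real (closedBall x r) := by
        rw [← integral_indicator_one (measurableSet_closedBall)]
        refine integral_mono (hint q r) ?_ fun y => ?_
        · exact (integrable_const (1 : ℝ)).indicator measurableSet_closedBall
        · by_cases hy : y ∈ closedBall x r
          · rw [indicator_of_mem hy]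
            exact h1 _
          · rw [indicator_of_notMem hy]
            apply le_of_eq
            apply hout
            rw [norm_smul, norm_inv, Real.norm_eq_abs, abs_of_pos hr, ← dist_eq_norm,
              le_inv_mul_iff₀ hr]
            rw [mem_closedBall, not_le] at hy
            linarith
      have e3 := hC r hr (lt_of_le_of_lt hrρ hρr₀)
      have e4 := H2 r hr (lt_of_le_of_lt hrρ hρr₁)
      have e5 : C * r ^ m ≤ max C 0 * r ^ m := by
        gcongr
        exact le_max_left _ _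
      linarith
    obtain ⟨A, hA0, hA⟩ := iterate hmono (C := max C 0) (ε := ε) (r₀ := ρ) (m := m)
      (le_max_right _ _) hρ0 hε0.le (by rw [hε]; apply le_of_eq; field_simp) hstep
    obtain ⟨k, hk⟩ := exists_nat_ge (max A (1 / ρ))
    refine mem_iUnion.2 ⟨k, hx, fun r hr hr' => ?_⟩
    have hk1 : A ≤ (k : ℝ) + 1 := by
      have := (le_max_left _ _).trans hk
      linarith
    have hk2 : 1 / ρ ≤ (k : ℝ) + 1 := by
      have := (le_max_right _ _).trans hk
      linarith
    have hrρ : r ≤ ρ := by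
      have h3 : 1 / ((k : ℝ) + 1) ≤ ρ := by
        rw [div_le_iff₀ (by positivity)]
        rw [div_le_iff₀ hρ0] at hk2
        linarith
      linarith
    have h3 := hA r hr hrρ
    rw [← ofReal_measureReal]
    apply ENNReal.ofReal_le_ofReal
    refine h3.trans ?_
    gcongr
  refine measure_mono_null hcover ?_
  rw [measure_union_null_iff]
  exact ⟨hbad, measure_iUnion_null hTnull⟩

end Density

section Pairing

open MeasureTheory.VectorMeasure ContinuousLinearMap

variable {X : Type} [MeasurableSpace X] {W : Type} [NormedAddCommGroup W] [InnerProductSpace ℝ W]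
  [FiniteDimensional ℝ W]

/-- The scalar component of a vector measure. -/
noncomputable def comp (μ : VectorMeasure X W) (ℓ : W →L[ℝ] ℝ) : SignedMeasure X :=
  μ.mapRange ℓ.toLinearMap.toAddMonoidHom ℓ.continuous

theorem comp_apply (μ : VectorMeasure X W) (ℓ : W →L[ℝ] ℝ) (s : Set X) :
    comp μ ℓ s = ℓ (μ s) := rfl

theorem integral_signed (σ : SignedMeasure X) {φ : X → ℝ}
    (h1 : Integrable φ σ.toJordanDecomposition.posPart)
    (h2 : Integrable φ σ.toJordanDecomposition.negPart) :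
    σ.integral φ (lsmul ℝ ℝ) = ∫ x, φ x ∂σ.toJordanDecomposition.posPart -
      ∫ x, φ x ∂σ.toJordanDecomposition.negPart := by
  have hflip : (lsmul ℝ ℝ : ℝ →L[ℝ] ℝ →L[ℝ] ℝ) = (lsmul ℝ ℝ : ℝ →L[ℝ] ℝ →L[ℝ] ℝ).flip := by
    ext; simp
  have hσ : σ = σ.toJordanDecomposition.posPart.toSignedMeasure -
      σ.toJordanDecomposition.negPart.toSignedMeasure :=
    σ.toSignedMeasure_toJordanDecomposition.symm
  have key : ∀ (p q : Measure X) [IsFiniteMeasure p] [IsFiniteMeasure q], Integrable φ p →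
      Integrable φ q → (p.toSignedMeasure - q.toSignedMeasure).integral φ (lsmul ℝ ℝ) =
        ∫ x, φ x ∂p - ∫ x, φ x ∂q := by
    intro p q _ _ hp hq
    rw [integral_sub_vectorMeasure]
    · rw [hflip, integral_toSignedMeasure, integral_toSignedMeasure]
    · show Integrable φ p.toSignedMeasure.variation
      rwa [Measure.variation_toSignedMeasure]
    · show Integrable φ q.toSignedMeasure.variation
      rwa [Measure.variation_toSignedMeasure]
  conv_lhs => rw [hσ]
  exact key _ _ h1 h2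

theorem pairing (μ : VectorMeasure X W) (ℓ : W →L[ℝ] ℝ) {φ : X → ℝ}
    (h0 : Integrable φ μ.variation) (h : Integrable φ (comp μ ℓ).variation) :
    ℓ (μ.integral φ (lsmul ℝ ℝ)) = (comp μ ℓ).integral φ (lsmul ℝ ℝ) := by
  rw [continuousLinearMap_apply_integral h0, integral_eq_setToFun_transpose h0,
    integral_eq_setToFun_transpose h]
  have ht : μ.transpose ((compL ℝ W W ℝ ℓ) ∘L (lsmul ℝ ℝ : ℝ →L[ℝ] W →L[ℝ] W)) =
      (comp μ ℓ).transpose (lsmul ℝ ℝ) := by
    ext s hs
    simp [VectorMeasure.transpose, comp]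
  simp only [ht]

end Pairing

section Main

open ContinuousLinearMap
open scoped ContDiff

variable {n : ℕ} {V W : Type} [NormedAddCommGroup V] [InnerProductSpace ℝ V]
  [FiniteDimensional ℝ V] [NormedAddCommGroup W] [InnerProductSpace ℝ W] [FiniteDimensional ℝ W]

/-- The `j`-th coordinate vector. -/
noncomputable def e (j : Fin n) : Eu n := EuclideanSpace.single j 1

/-- The function `y ↦ ∑ j, ∂ⱼφ(y) Bⱼ u(y)`. -/
noncomputable def pairU (B : Fin n → V →ₗ[ℝ] W) (u : Eu n → V) (φ : Eu n → ℝ) (y : Eu n) : W :=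
  ∑ j, fderiv ℝ φ y (e j) • B j (u y)

/-- `u` belongs to `BV^B(Ω)`, and the measure `μ` is the distributional `B u` on `Ω`. -/
structure IsBV (B : Fin n → V →ₗ[ℝ] W) (Ω : Set (Eu n)) (u : Eu n → V)
    (μ : VectorMeasure (Eu n) W) : Prop where
  integrable : IntegrableOn u Ω
  finite : IsFiniteMeasure μ.variation
  identity : ∀ φ : Eu n → ℝ, ContDiff ℝ ∞ φ → HasCompactSupport φ → tsupport φ ⊆ Ω →
    ∫ y in Ω, pairU B u φ y = - μ.integral φ (lsmul ℝ ℝ)

/-- The half balls. -/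
def halfBall (x ν : Eu n) (r : ℝ) : Set (Eu n) := {y | y ∈ ball x r ∧ 0 < inner ℝ (y - x) ν}

/-- The jump set of `u` in `Ω`. -/
def jumpSet (Ω : Set (Eu n)) (u : Eu n → V) : Set (Eu n) :=
  {x | x ∈ Ω ∧ ∃ a b : V, a ≠ b ∧ ∃ ν : Eu n, ‖ν‖ = 1 ∧
    Tendsto (fun r : ℝ => (1 / r ^ n) * ∫ y in halfBall x ν r, ‖u y - a‖) (𝓝[>] 0) (𝓝 0) ∧
    Tendsto (fun r : ℝ => (1 / r ^ n) * ∫ y in halfBall x (-ν) r, ‖u y - b‖) (𝓝[>] 0) (𝓝 0)}

/-- The set of the points of `Ω` at which the averages of `‖u‖` stay bounded. -/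
def boundedSet (Ω : Set (Eu n)) (u : Eu n → V) : Set (Eu n) :=
  {x | x ∈ Ω ∧ ∃ M r₀ : ℝ, 0 < r₀ ∧ ∀ r, 0 < r → r < r₀ → ∫ y in ball x r, ‖u y‖ ≤ M * r ^ n}

/-- A smooth bump. -/
noncomputable def bump (n : ℕ) : ContDiffBump (0 : Eu n) :=
  ⟨1 / 2, 3 / 4, by norm_num, by norm_num⟩

theorem bump_one {y : Eu n} (hy : ‖y‖ ≤ 1 / 2) : bump n y = 1 := by
  apply (bump n).one_of_mem_closedBall
  rw [mem_closedBall, dist_zero_right]
  exact hy

theorem bump_zero {y : Eu n} (hy : 3 / 4 ≤ ‖y‖) : bump n y = 0 := by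
  apply (bump n).zero_of_le_dist
  rw [dist_zero_right]
  exact hy

theorem exists_deriv_bound (n : ℕ) : ∃ K : ℝ, 0 ≤ K ∧ ∀ y, ‖fderiv ℝ (bump n) y‖ ≤ K := by
  have h1 : Continuous (fderiv ℝ (bump n)) :=
    (bump n).contDiff.continuous_fderiv (n := 1) (by norm_num)
  have h2 : HasCompactSupport (fderiv ℝ (bump n)) := (bump n).hasCompactSupport.fderiv ℝ
  obtain ⟨K, hK⟩ := h1.bounded_above_of_compact_support h2
  exact ⟨max K 0, le_max_right _ _, fun y => (hK y).trans (le_max_left _ _)⟩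

theorem fderiv_bump_zero {y : Eu n} (hy : 1 ≤ ‖y‖) : fderiv ℝ (bump n) y = 0 := by
  have h1 : (bump n : Eu n → ℝ) =ᶠ[𝓝 y] fun _ => 0 := by
    have h2 : {z : Eu n | 3 / 4 < ‖z‖} ∈ 𝓝 y := by
      apply (isOpen_lt continuous_const continuous_norm).mem_nhds
      show 3 / 4 < ‖y‖
      linarith
    filter_upwards [h2] with z hz
    exact bump_zero (le_of_lt hz)
  rw [h1.fderiv_eq]
  simp

/-- The rescaled bump. -/
noncomputable def psi (x : Eu n) (r : ℝ) (y : Eu n) : ℝ := bump n (r⁻¹ • (y - x))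

theorem contDiff_psi (x : Eu n) (r : ℝ) : ContDiff ℝ ∞ (psi x r) := by
  unfold psi
  exact (bump n).contDiff.comp (by fun_prop)

theorem fderiv_psi (x : Eu n) (r : ℝ) (y : Eu n) :
    fderiv ℝ (psi x r) y = r⁻¹ • fderiv ℝ (bump n) (r⁻¹ • (y - x)) := by
  have h1 : HasFDerivAt (fun y : Eu n => r⁻¹ • (y - x)) (r⁻¹ • ContinuousLinearMap.id ℝ (Eu n)) y :=
    ((hasFDerivAt_id y).sub_const x).const_smul r⁻¹
  have h2 : HasFDerivAt (bump n) (fderiv ℝ (bump n) (r⁻¹ • (y - x))) (r⁻¹ • (y - x)) :=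
    (((bump n).contDiff (n := 1)).differentiable (by norm_num) _).hasFDerivAt
  have h3 := h2.comp y h1
  have h4 : psi x r = (bump n : Eu n → ℝ) ∘ fun y : Eu n => r⁻¹ • (y - x) := rfl
  rw [h4, h3.fderiv]
  ext z
  simp

theorem psi_zero {x : Eu n} {r : ℝ} (hr : 0 < r) {y : Eu n} (hy : 3 / 4 * r ≤ dist y x) :
    psi x r y = 0 := by
  apply bump_zero
  rw [norm_smul, norm_inv, Real.norm_eq_abs, abs_of_pos hr, ← dist_eq_norm, le_inv_mul_iff₀ hr]
  linarith

theorem fderiv_psi_zero {x : Eu n} {r : ℝ} (hr : 0 < r) {y : Eu n} (hy : r ≤ dist y x) :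
    fderiv ℝ (psi x r) y = 0 := by
  rw [fderiv_psi, fderiv_bump_zero, smul_zero]
  rw [norm_smul, norm_inv, Real.norm_eq_abs, abs_of_pos hr, ← dist_eq_norm, le_inv_mul_iff₀ hr]
  linarith

theorem norm_fderiv_psi {K : ℝ} (hK : ∀ y, ‖fderiv ℝ (bump n) y‖ ≤ K) {x : Eu n} {r : ℝ}
    (hr : 0 < r) (y : Eu n) : ‖fderiv ℝ (psi x r) y‖ ≤ K / r := by
  rw [fderiv_psi, norm_smul, norm_inv, Real.norm_eq_abs, abs_of_pos hr, inv_mul_eq_div]
  gcongr
  exact hK _

theorem tsupport_psi (x : Eu n) {r : ℝ} (hr : 0 < r) : tsupport (psi x r) ⊆ closedBall x (3 / 4 * r) := by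
  apply closure_minimal _ isClosed_closedBall
  intro y hy
  by_contra hcon
  rw [mem_closedBall, not_le] at hcon
  exact hy (psi_zero hr hcon.le)

theorem hasCompactSupport_psi (x : Eu n) {r : ℝ} (hr : 0 < r) : HasCompactSupport (psi x r) :=
  (isCompact_closedBall x (3 / 4 * r)).of_isClosed_subset (isClosed_tsupport _) (tsupport_psi x hr)

theorem exists_B_bound (B : Fin n → V →ₗ[ℝ] W) : ∃ b : ℝ, 0 ≤ b ∧ ∀ j v, ‖B j v‖ ≤ b * ‖v‖ := by
  refine ⟨∑ j, ‖LinearMap.toContinuousLinearMap (B j)‖, by positivity, fun j v => ?_⟩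
  calc ‖B j v‖ = ‖LinearMap.toContinuousLinearMap (B j) v‖ := rfl
    _ ≤ ‖LinearMap.toContinuousLinearMap (B j)‖ * ‖v‖ := ContinuousLinearMap.le_opNorm _ _
    _ ≤ (∑ j, ‖LinearMap.toContinuousLinearMap (B j)‖) * ‖v‖ := by
        gcongr
        exact Finset.single_le_sum (f := fun j => ‖LinearMap.toContinuousLinearMap (B j)‖)
          (fun _ _ => norm_nonneg _) (Finset.mem_univ j)

theorem norm_pairU {B : Fin n → V →ₗ[ℝ] W} {b : ℝ} (hb : ∀ j v, ‖B j v‖ ≤ b * ‖v‖)
    (u : Eu n → V) (φ : Eu n → ℝ) (y : Eu n) :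
    ‖pairU B u φ y‖ ≤ n * (‖fderiv ℝ φ y‖ * (b * ‖u y‖)) := by
  unfold pairU
  calc ‖∑ j, fderiv ℝ φ y (e j) • B j (u y)‖ ≤ ∑ j : Fin n, ‖fderiv ℝ φ y (e j) • B j (u y)‖ :=
        norm_sum_le _ _
    _ ≤ ∑ j : Fin n, ‖fderiv ℝ φ y‖ * (b * ‖u y‖) := by
        apply Finset.sum_le_sum
        intro j _
        rw [norm_smul]
        have h1 : ‖fderiv ℝ φ y (e j)‖ ≤ ‖fderiv ℝ φ y‖ := by
          have h2 := (fderiv ℝ φ y).le_opNorm (e j)
          have h3 : ‖(e j : Eu n)‖ = 1 := by simp [e]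
          rwa [h3, mul_one] at h2
        exact mul_le_mul h1 (hb j _) (norm_nonneg _) (norm_nonneg _)
    _ = n * (‖fderiv ℝ φ y‖ * (b * ‖u y‖)) := by simp

/-- The measure of the rescaled bump is controlled at the points of the bounded set. -/
theorem estimate {B : Fin n → V →ₗ[ℝ] W} {Ω : Set (Eu n)} (hΩ : IsOpen Ω) {u : Eu n → V}
    {μ : VectorMeasure (Eu n) W} (h : IsBV B Ω u μ) {x : Eu n} (hx : x ∈ boundedSet Ω u) :
    ∃ C r₀ : ℝ, 0 < r₀ ∧ ∀ r, 0 < r → r < r₀ →
      ‖μ.integral (psi x r) (lsmul ℝ ℝ)‖ ≤ C * (r⁻¹ * r ^ n) := by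
  obtain ⟨hxΩ, M, r₁, hr₁, hM⟩ := hx
  obtain ⟨δ, hδ, hδΩ⟩ := Metric.isOpen_iff.1 hΩ x hxΩ
  obtain ⟨K, hK0, hK⟩ := exists_deriv_bound n
  obtain ⟨b, hb0, hb⟩ := exists_B_bound B
  refine ⟨n * (K * b * M), min r₁ δ, lt_min hr₁ hδ, fun r hr hrr => ?_⟩
  have hr1 : r < r₁ := hrr.trans_le (min_le_left _ _)
  have hr2 : r < δ := hrr.trans_le (min_le_right _ _)
  have hball : ball x r ⊆ Ω := (ball_subset_ball hr2.le).trans hδΩ
  have hsupp : tsupport (psi x r) ⊆ Ω := by
    refine (tsupport_psi x hr).trans (subset_trans ?_ hball)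
    apply closedBall_subset_ball
    linarith
  have hid := h.identity (psi x r) (contDiff_psi x r) (hasCompactSupport_psi x hr) hsupp
  have h1 : ‖μ.integral (psi x r) (lsmul ℝ ℝ)‖ = ‖∫ y in Ω, pairU B u (psi x r) y‖ := by
    rw [hid, norm_neg]
  rw [h1]
  have hmeas : MeasurableSet (ball x r) := measurableSet_ball
  set c : ℝ := n * (K / r * b) with hc
  have hc0 : 0 ≤ c := by positivity
  have h2 : ∀ y, ‖pairU B u (psi x r) y‖ ≤ (ball x r).indicator (fun y => c * ‖u y‖) y := by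
    intro y
    refine (norm_pairU hb u (psi x r) y).trans ?_
    by_cases hy : y ∈ ball x r
    · rw [indicator_of_mem hy]
      have h3 := norm_fderiv_psi hK (x := x) hr y
      calc (n : ℝ) * (‖fderiv ℝ (psi x r) y‖ * (b * ‖u y‖)) ≤ n * (K / r * (b * ‖u y‖)) := by
            gcongr
        _ = c * ‖u y‖ := by rw [hc]; ring
    · rw [indicator_of_notMem hy]
      rw [mem_ball, not_lt] at hy
      rw [fderiv_psi_zero hr hy, norm_zero, zero_mul, mul_zero]
  have hint : IntegrableOn (fun y => c * ‖u y‖) Ω := (h.integrable.norm).const_mul c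
  calc ‖∫ y in Ω, pairU B u (psi x r) y‖
      ≤ ∫ y in Ω, (ball x r).indicator (fun y => c * ‖u y‖) y :=
        norm_integral_le_of_norm_le (hint.indicator hmeas) (Eventually.of_forall h2)
    _ = ∫ y in ball x r, c * ‖u y‖ := by
        rw [setIntegral_indicator hmeas, inter_eq_self_of_subset_right hball]
    _ = c * ∫ y in ball x r, ‖u y‖ := integral_const_mul _ _
    _ ≤ c * (M * r ^ n) := by
        gcongr
        exact hM r hr hr1
    _ = n * (K * b * M) * (r⁻¹ * r ^ n) := by rw [hc]; field_simp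

theorem hyperplane_null (x : Eu n) {ν : Eu n} (hν : ‖ν‖ = 1) :
    volume {y : Eu n | inner ℝ (y - x) ν = 0} = 0 := by
  have h1 : volume ((LinearMap.ker (innerSL ℝ ν).toLinearMap : Submodule ℝ (Eu n)) : Set (Eu n)) = 0 := by
    apply Measure.addHaar_submodule
    intro hcon
    have h2 : ν ∈ (LinearMap.ker (innerSL ℝ ν).toLinearMap : Submodule ℝ (Eu n)) := by
      rw [hcon]; exact Submodule.mem_top
    have h3 : inner ℝ ν ν = 0 := h2
    rw [real_inner_self_eq_norm_sq, hν] at h3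
    norm_num at h3
  have h2 : {y : Eu n | inner ℝ (y - x) ν = 0} = (fun y => y + -x) ⁻¹'
      ((LinearMap.ker (innerSL ℝ ν).toLinearMap : Submodule ℝ (Eu n)) : Set (Eu n)) := by
    ext y
    simp only [mem_ofPred_eq, mem_preimage, SetLike.mem_coe, LinearMap.mem_ker]
    rw [real_inner_comm, sub_eq_add_neg]
    rfl
  rw [h2, measure_preimage_add_right]
  exact h1

theorem measurableSet_halfBall (x ν : Eu n) (r : ℝ) : MeasurableSet (halfBall x ν r) := by
  have h1 : IsOpen {y : Eu n | 0 < inner ℝ (y - x) ν} :=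
    isOpen_lt continuous_const (by fun_prop)
  exact measurableSet_ball.inter h1.measurableSet

theorem ball_ae (x : Eu n) {ν : Eu n} (hν : ‖ν‖ = 1) (r : ℝ) :
    (ball x r : Set (Eu n)) =ᵐ[volume] (halfBall x ν r ∪ halfBall x (-ν) r : Set (Eu n)) := by
  have h1 := hyperplane_null x hν
  have h2 : ∀ᵐ y : Eu n, inner ℝ (y - x) ν ≠ 0 := by
    rw [ae_iff]
    simpa using h1
  filter_upwards [h2] with y hy
  apply propext
  constructor
  · intro hyb
    rcases lt_or_gt_of_ne hy with h3 | h3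
    · right
      refine ⟨hyb, ?_⟩
      rw [inner_neg_right]; linarith
    · exact Or.inl ⟨hyb, h3⟩
  · rintro (h3 | h3)
    · exact h3.1
    · exact h3.1

theorem jump_subset_bounded {Ω : Set (Eu n)} (hΩ : IsOpen Ω) {u : Eu n → V}
    (hu : IntegrableOn u Ω) : jumpSet Ω u ⊆ boundedSet Ω u := by
  rintro x ⟨hxΩ, a, b, -, ν, hν, ha, hb⟩
  refine ⟨hxΩ, ?_⟩
  obtain ⟨δ, hδ, hδΩ⟩ := Metric.isOpen_iff.1 hΩ x hxΩ
  have hex : ∀ {f : ℝ → ℝ}, Tendsto f (𝓝[>] 0) (𝓝 0) → ∃ r₁ > 0, ∀ r, 0 < r → r < r₁ → f r < 1 := by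
    intro f hf
    have hev := hf.eventually (gt_mem_nhds (zero_lt_one))
    rw [eventually_nhdsWithin_iff, Metric.eventually_nhds_iff] at hev
    obtain ⟨r₁, hr₁, H⟩ := hev
    refine ⟨r₁, hr₁, fun r hr hr' => H ?_ hr⟩
    rw [Real.dist_eq, sub_zero, abs_of_pos hr]
    exact hr'
  obtain ⟨r₁, hr₁, H1⟩ := hex ha
  obtain ⟨r₂, hr₂, H2⟩ := hex hb
  set v : ℝ := (volume : Measure (Eu n)).real (ball 0 1) with hv
  have hv0 : 0 ≤ v := measureReal_nonneg
  refine ⟨(1 + ‖a‖ * v) + (1 + ‖b‖ * v), min (min r₁ r₂) δ, lt_min (lt_min hr₁ hr₂) hδ,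
    fun r hr hrr => ?_⟩
  have hr1 : r < r₁ := hrr.trans_le ((min_le_left _ _).trans (min_le_left _ _))
  have hr2 : r < r₂ := hrr.trans_le ((min_le_left _ _).trans (min_le_right _ _))
  have hr3 : r < δ := hrr.trans_le (min_le_right _ _)
  have hball : ball x r ⊆ Ω := (ball_subset_ball hr3.le).trans hδΩ
  have hvol : (volume : Measure (Eu n)).real (ball x r) = r ^ n * v := by
    rw [measureReal_def, Measure.addHaar_ball_of_pos _ _ hr, ENNReal.toReal_mul,
      ENNReal.toReal_ofReal (by positivity), finrank_euclideanSpace, Fintype.card_fin]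
    rfl
  have hub : IntegrableOn u (ball x r) := hu.mono_set hball
  have hhalf : ∀ (ν' : Eu n) (c : V), (1 / r ^ n) * ∫ y in halfBall x ν' r, ‖u y - c‖ < 1 →
      ∫ y in halfBall x ν' r, ‖u y‖ ≤ (1 + ‖c‖ * v) * r ^ n := by
    intro ν' c hc
    have hsub : halfBall x ν' r ⊆ ball x r := fun y hy => hy.1
    have hrn : 0 < r ^ n := by positivity
    have h1 : ∫ y in halfBall x ν' r, ‖u y - c‖ ≤ r ^ n := by
      rw [one_div, inv_mul_lt_iff₀ hrn, mul_one] at hc
      exact hc.le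
    have h2 : IntegrableOn u (halfBall x ν' r) := hub.mono_set hsub
    have hfin : volume (halfBall x ν' r) ≠ ⊤ :=
      ne_top_of_le_ne_top (measure_ball_lt_top (x := x) (r := r)).ne (measure_mono hsub)
    have h3 : IntegrableOn (fun _ : Eu n => c) (halfBall x ν' r) := integrableOn_const hfin
    have h3' : IntegrableOn (fun _ : Eu n => ‖c‖) (halfBall x ν' r) := integrableOn_const hfin
    have h4 : ∫ y in halfBall x ν' r, ‖u y‖ ≤ ∫ y in halfBall x ν' r, (‖u y - c‖ + ‖c‖) := by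
      apply integral_mono h2.norm ((h2.sub h3).norm.add h3')
      intro y
      show ‖u y‖ ≤ ‖u y - c‖ + ‖c‖
      calc ‖u y‖ = ‖(u y - c) + c‖ := by rw [sub_add_cancel]
        _ ≤ _ := norm_add_le _ _
    have h5 : ∫ y in halfBall x ν' r, (‖u y - c‖ + ‖c‖) =
        (∫ y in halfBall x ν' r, ‖u y - c‖) + ∫ y in halfBall x ν' r, ‖c‖ :=
      integral_add (h2.sub h3).norm h3'
    have h6 : ∫ y in halfBall x ν' r, ‖c‖ = (volume : Measure (Eu n)).real (halfBall x ν' r) * ‖c‖ := by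
      rw [setIntegral_const, smul_eq_mul]
    have h7 : (volume : Measure (Eu n)).real (halfBall x ν' r) ≤ r ^ n * v := by
      rw [← hvol]
      exact measureReal_mono hsub (measure_ball_lt_top (x := x) (r := r)).ne
    rw [h5, h6] at h4
    have h8 : (volume : Measure (Eu n)).real (halfBall x ν' r) * ‖c‖ ≤ r ^ n * v * ‖c‖ := by
      gcongr
    nlinarith
  have hdisj : Disjoint (halfBall x ν r) (halfBall x (-ν) r) := by
    rw [Set.disjoint_left]
    rintro y ⟨-, hy1⟩ ⟨-, hy2⟩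
    rw [inner_neg_right] at hy2
    linarith
  rw [setIntegral_congr_set (ball_ae x hν r), setIntegral_union hdisj (measurableSet_halfBall _ _ _)
    (hub.mono_set (fun y hy => hy.1)).norm (hub.mono_set (fun y hy => hy.1)).norm]
  have h1 := hhalf ν a (H1 r hr hr1)
  have h2 := hhalf (-ν) b (H2 r hr hr2)
  linarith

/-- The scalar components of `μ` do not charge the null subsets of the bounded set. -/
theorem comp_null {B : Fin (n + 1) → V →ₗ[ℝ] W} {Ω : Set (Eu (n + 1))} (hΩ : IsOpen Ω)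
    {u : Eu (n + 1) → V} {μ : VectorMeasure (Eu (n + 1)) W} (h : IsBV B Ω u μ) (ℓ : W →L[ℝ] ℝ)
    {E : Set (Eu (n + 1))} (hE : E ⊆ boundedSet Ω u)
    (hE0 : Measure.hausdorffMeasure (n : ℝ) E = 0) :
    (comp μ ℓ).toJordanDecomposition.posPart E = 0 ∧
      (comp μ ℓ).toJordanDecomposition.negPart E = 0 := by
  have := h.finite
  set σ := comp μ ℓ with hσ
  have hint : ∀ (p : Measure (Eu (n + 1))) [IsFiniteMeasure p] (x : Eu (n + 1)) (r : ℝ),
      Integrable (psi x r) p := by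
    intro p _ x r
    refine Integrable.of_bound (C := 1) ?_ ?_
    · exact (contDiff_psi x r).continuous.aestronglyMeasurable
    · filter_upwards with y
      unfold psi
      rw [Real.norm_eq_abs, abs_of_nonneg (bump (n + 1)).nonneg]
      exact (bump (n + 1)).le_one
  have hvar : IsFiniteMeasure σ.variation := by
    have h1 : σ.variation ≤ (‖ℓ‖₊ : ℝ≥0∞) • μ.variation := by
      apply VectorMeasure.variation_le_of_forall_enorm_le
      intro s _
      rw [hσ, comp_apply, Measure.smul_apply, smul_eq_mul]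
      calc ‖ℓ (μ s)‖ₑ ≤ ‖ℓ‖ₑ * ‖μ s‖ₑ := ℓ.le_opENorm _
        _ ≤ _ := by
          gcongr
          · exact le_rfl
          · exact VectorMeasure.enorm_measure_le_variation _ _
    refine ⟨(h1 univ).trans_lt ?_⟩
    rw [Measure.smul_apply, smul_eq_mul]
    exact ENNReal.mul_lt_top ENNReal.coe_lt_top (measure_lt_top _ _)
  have key : ∀ x ∈ boundedSet Ω u, ∃ C r₀ : ℝ, 0 < r₀ ∧ ∀ r, 0 < r → r < r₀ →
      |∫ y, bump (n + 1) (r⁻¹ • (y - x)) ∂σ.toJordanDecomposition.posPart -
        ∫ y, bump (n + 1) (r⁻¹ • (y - x)) ∂σ.toJordanDecomposition.negPart| ≤ C * r ^ n := by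
    intro x hx
    obtain ⟨C, r₀, hr₀, hC⟩ := estimate hΩ h hx
    refine ⟨‖ℓ‖ * C, r₀, hr₀, fun r hr hrr => ?_⟩
    have h1 := integral_signed σ (φ := psi x r) (hint _ x r) (hint _ x r)
    have h2 := pairing μ ℓ (φ := psi x r) (hint _ x r) (hint _ x r)
    have h3 : |∫ y, bump (n + 1) (r⁻¹ • (y - x)) ∂σ.toJordanDecomposition.posPart -
        ∫ y, bump (n + 1) (r⁻¹ • (y - x)) ∂σ.toJordanDecomposition.negPart| =
        ‖ℓ (μ.integral (psi x r) (lsmul ℝ ℝ))‖ := by
      rw [h2, ← hσ, h1, Real.norm_eq_abs]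
      rfl
    rw [h3]
    calc ‖ℓ (μ.integral (psi x r) (lsmul ℝ ℝ))‖ ≤ ‖ℓ‖ * ‖μ.integral (psi x r) (lsmul ℝ ℝ)‖ :=
          ℓ.le_opNorm _
      _ ≤ ‖ℓ‖ * (C * (r⁻¹ * r ^ (n + 1))) := by
          gcongr
          exact hC r hr hrr
      _ = ‖ℓ‖ * C * r ^ n := by
          rw [pow_succ]; field_simp
  have hsing := σ.toJordanDecomposition.mutuallySingular
  constructor
  · refine null_pos (p := σ.toJordanDecomposition.posPart)
      (q := σ.toJordanDecomposition.negPart) hsing.symm (m := n) (ph := bump (n + 1))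
      (bump (n + 1)).continuous (fun y => (bump (n + 1)).nonneg) (fun y => (bump (n + 1)).le_one)
      (fun y hy => bump_one hy) (fun y hy => bump_zero (by linarith)) hE0 ?_
    intro x hx
    obtain ⟨C, r₀, hr₀, hC⟩ := key x (hE hx)
    exact ⟨C, r₀, hr₀, fun r hr hrr => (le_abs_self _).trans (hC r hr hrr)⟩
  · refine null_pos (p := σ.toJordanDecomposition.negPart)
      (q := σ.toJordanDecomposition.posPart) hsing (m := n) (ph := bump (n + 1))
      (bump (n + 1)).continuous (fun y => (bump (n + 1)).nonneg) (fun y => (bump (n + 1)).le_one)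
      (fun y hy => bump_one hy) (fun y hy => bump_zero (by linarith)) hE0 ?_
    intro x hx
    obtain ⟨C, r₀, hr₀, hC⟩ := key x (hE hx)
    refine ⟨C, r₀, hr₀, fun r hr hrr => ?_⟩
    have h1 := (neg_le_abs _).trans (hC r hr hrr)
    linarith

theorem main_bounded {B : Fin (n + 1) → V →ₗ[ℝ] W} {Ω : Set (Eu (n + 1))} (hΩ : IsOpen Ω)
    {u : Eu (n + 1) → V} {μ : VectorMeasure (Eu (n + 1)) W} (h : IsBV B Ω u μ)
    {E : Set (Eu (n + 1))} (hE : E ⊆ boundedSet Ω u)
    (hE0 : Measure.hausdorffMeasure (n : ℝ) E = 0) : μ.variation E = 0 := by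
  set w := stdOrthonormalBasis ℝ W with hw
  set p : Fin (Module.finrank ℝ W) → Measure (Eu (n + 1)) := fun i =>
    (comp μ (innerSL ℝ (w i))).totalVariation with hp
  have hp0 : ∀ i, p i E = 0 := by
    intro i
    obtain ⟨h1, h2⟩ := comp_null hΩ h (innerSL ℝ (w i)) hE hE0
    rw [hp]
    simp only [SignedMeasure.totalVariation, Measure.add_apply, h1, h2, add_zero]
  set T : Set (Eu (n + 1)) := toMeasurable μ.variation E ∩ ⋂ i, toMeasurable (p i) E with hT
  have hTm : MeasurableSet T :=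
    (measurableSet_toMeasurable _ _).inter (MeasurableSet.iInter fun i => measurableSet_toMeasurable _ _)
  have hET : E ⊆ T := subset_inter (subset_toMeasurable _ _)
    (subset_iInter fun i => subset_toMeasurable _ _)
  refine measure_mono_null hET ?_
  rw [VectorMeasure.variation_apply_eq_zero hTm]
  intro t htT ht
  rw [← w.sum_repr' (μ t)]
  apply Finset.sum_eq_zero
  intro i _
  have h1 : p i t = 0 := by
    have h2 : p i (toMeasurable (p i) E) = 0 := by rw [measure_toMeasurable]; exact hp0 i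
    exact measure_mono_null (htT.trans (inter_subset_right.trans (iInter_subset _ i))) h2
  have h2 : comp μ (innerSL ℝ (w i)) t = 0 := SignedMeasure.null_of_totalVariation_zero _ h1
  have h3 : inner ℝ (w i) (μ t) = 0 := h2
  rw [h3, zero_smul]

/-- The positive answer. For every first order operator `B[D] u = ∑ j, Bⱼ ∂ⱼ u` with constant
coefficients on an open subset `Ω` of `ℝⁿ`, `n ≥ 1`, with no ellipticity assumption at all, and
every `u` with `B[D] u = μ` a finite measure, `μ` restricted to the jump set of `u` is absolutely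
continuous with respect to the Hausdorff measure of dimension `n - 1`. The same holds for the
larger set of the points of `Ω` at which the averages of `‖u‖` on small balls stay bounded. -/
theorem result {n : ℕ} (hn : 1 ≤ n) {V W : Type} [NormedAddCommGroup V] [InnerProductSpace ℝ V]
    [FiniteDimensional ℝ V] [NormedAddCommGroup W] [InnerProductSpace ℝ W]
    [FiniteDimensional ℝ W] (B : Fin n → V →ₗ[ℝ] W) (Ω : Set (Eu n)) (hΩ : IsOpen Ω)
    (u : Eu n → V) (μ : VectorMeasure (Eu n) W) (h : IsBV B Ω u μ) :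
    jumpSet Ω u ⊆ boundedSet Ω u ∧
    (∀ E ⊆ boundedSet Ω u, Measure.hausdorffMeasure ((n : ℝ) - 1) E = 0 → μ.variation E = 0) ∧
    μ.variation.restrict (jumpSet Ω u) ≪ Measure.hausdorffMeasure ((n : ℝ) - 1) := by
  obtain ⟨m, rfl⟩ : ∃ m, n = m + 1 := ⟨n - 1, by omega⟩
  have h1 := jump_subset_bounded hΩ h.integrable
  have h2 : ∀ E ⊆ boundedSet Ω u, Measure.hausdorffMeasure (((m + 1 : ℕ) : ℝ) - 1) E = 0 →
      μ.variation E = 0 := by
    intro E hE hE0
    have h3 : ((m + 1 : ℕ) : ℝ) - 1 = (m : ℝ) := by push_cast; ring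
    rw [h3] at hE0
    exact main_bounded hΩ h hE hE0
  refine ⟨h1, h2, ?_⟩
  apply Measure.AbsolutelyContinuous.mk
  intro s hs hs0
  rw [Measure.restrict_apply hs]
  exact h2 _ (inter_subset_right.trans h1) (measure_mono_null inter_subset_left hs0)

end Main

end Pool.Agent.Results.MP_06111c_an.JumpSet
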